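import Pool.Agent.Helper77.PPS.GoalsH

/-!
# Project PP (MP_fc6b1e_nt), packet PPS-H_G: the function `g`
-/

namespace Pool.Agent.Helper28.PPS

open Pool.Agent.Helper77.PPS

/-- The base of the power is at least one. -/
theorem one_le_base (Y : ℝ) : 1 ≤ max 1 (Real.log (max 1 Y)) := le_max_left _ _

theorem base_mono {Y X : ℝ} (h : Y ≤ X) :
    max 1 (Real.log (max 1 Y)) ≤ max 1 (Real.log (max 1 X)) := by
  refine max_le_max le_rfl (Real.log_le_log (by positivity) (max_le_max le_rfl h))

theorem base_two (Y : ℝ) :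
    max 1 (Real.log (max 1 (2 * Y))) ≤ 2 * max 1 (Real.log (max 1 Y)) := by
  have h1 : (1 : ℝ) ≤ max 1 Y := le_max_left _ _
  have h2 : max 1 (2 * Y) ≤ 2 * max 1 Y := by
    refine max_le (by linarith) ?_
    exact mul_le_mul_of_nonneg_left (le_max_right _ _) (by norm_num)
  have h3 : Real.log (max 1 (2 * Y)) ≤ Real.log 2 + Real.log (max 1 Y) := by
    rw [← Real.log_mul (by norm_num) (by positivity)]
    exact Real.log_le_log (by positivity) h2
  have h4 : Real.log 2 ≤ 1 := by
    have := Real.log_two_lt_d9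
    linarith
  have h5 := le_max_left (1 : ℝ) (Real.log (max 1 Y))
  have h6 := le_max_right (1 : ℝ) (Real.log (max 1 Y))
  exact max_le (by linarith) (by linarith)

theorem h_g : Pool.Agent.Helper77.PPS.H_G := by
  intro κ hκ
  have hk : 0 ≤ κ - 1 := by linarith
  refine ⟨fun Y => Real.one_le_rpow (one_le_base Y) hk, fun Y X h => ?_, fun Y => ?_,
    fun Y hY => ?_⟩
  · exact Real.rpow_le_rpow (by positivity) (base_mono h) hk
  · unfold gK
    rw [← Real.mul_rpow (by norm_num) (by positivity)]
    exact Real.rpow_le_rpow (by positivity) (base_two Y) hk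
  · unfold gK
    have h1 : max 1 Y = Y := max_eq_right (by linarith)
    rw [h1]
    exact Real.rpow_le_rpow (Real.log_nonneg (by linarith)) (le_max_right _ _) hk

end Pool.Agent.Helper28.PPS
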